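import Mathlib

/-!
# Parity: the points over a Galois extension fixed by the Galois group
-/

set_option autoImplicit false

namespace Pool.Agent.K3h18.PV

open WeierstrassCurve

section

variable (F K : Type) [Field F] [NumberField F] [Field K] [NumberField K] [Algebra F K]

open Classical in
/-- the action of `Gal(K/F)` on the points -/
noncomputable def gaF (W : WeierstrassCurve ℚ) :
    DistribMulAction (K ≃ₐ[F] K) (W.baseChange K).toAffine.Point where
  smul σ P := Affine.Point.map (W' := W.toAffine) (RingHom.toRatAlgHom (σ : K →+* K)) P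
  one_smul P := by
    show Affine.Point.map (W' := W.toAffine)
      (RingHom.toRatAlgHom ((1 : K ≃ₐ[F] K) : K →+* K)) P = P
    rcases P with _ | ⟨x, y, h⟩
    · rfl
    · rfl
  mul_smul σ τ P := by
    show Affine.Point.map (W' := W.toAffine) (RingHom.toRatAlgHom ((σ * τ : K ≃ₐ[F] K) : K →+* K)) P =
      Affine.Point.map (W' := W.toAffine) (RingHom.toRatAlgHom (σ : K →+* K))
        (Affine.Point.map (W' := W.toAffine) (RingHom.toRatAlgHom (τ : K →+* K)) P)
    rcases P with _ | ⟨x, y, h⟩
    · rfl
    · rfl
  smul_zero σ := map_zero _
  smul_add σ P Q := map_add _ _ _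

open Classical in
/-- the points over `F` as points over `K` -/
noncomputable def jF (W : WeierstrassCurve ℚ) :
    (W.baseChange F).toAffine.Point →+ (W.baseChange K).toAffine.Point :=
  Affine.Point.map (W' := W.toAffine) (RingHom.toRatAlgHom (algebraMap F K))

open Classical in
lemma jF_inj (W : WeierstrassCurve ℚ) : Function.Injective (jF F K W) :=
  Affine.Point.map_injective _

open Classical in
lemma fixed_range [IsGalois F K] (W : WeierstrassCurve ℚ) :
    letI := gaF F K W
    FixedPoints.addSubgroup (K ≃ₐ[F] K) (W.baseChange K).toAffine.Point = (jF F K W).range := by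
  letI := gaF F K W
  ext P
  constructor
  · intro hP
    rcases P with _ | ⟨x, y, h⟩
    · exact ⟨0, rfl⟩
    · have h1 : ∀ σ : K ≃ₐ[F] K, σ x = x ∧ σ y = y := by
        intro σ
        have h2 : Affine.Point.map (W' := W.toAffine) (RingHom.toRatAlgHom (σ : K →+* K))
          (Affine.Point.some x y h) = Affine.Point.some x y h := hP σ
        rw [Affine.Point.map_some] at h2
        have h3 := (Affine.Point.some.injEq ..).mp h2
        exact ⟨h3.1, h3.2⟩
      have hx : x ∈ Set.range (algebraMap F K) := by
        have := (IsGalois.mem_bot_iff_fixed (F := F) (E := K) x).2 fun σ => (h1 σ).1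
        rwa [IntermediateField.mem_bot] at this
      have hy : y ∈ Set.range (algebraMap F K) := by
        have := (IsGalois.mem_bot_iff_fixed (F := F) (E := K) y).2 fun σ => (h1 σ).2
        rwa [IntermediateField.mem_bot] at this
      obtain ⟨a, rfl⟩ := hx
      obtain ⟨b, rfl⟩ := hy
      have h4 : (W.baseChange F).toAffine.Nonsingular a b :=
        (W.toAffine.baseChange_nonsingular
          (f := RingHom.toRatAlgHom (algebraMap F K)) (algebraMap F K).injective a b).mp h
      exact ⟨Affine.Point.some a b h4, rfl⟩
  · rintro ⟨Q, rfl⟩ σ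
    rcases Q with _ | ⟨a, b, h⟩
    · rfl
    · show Affine.Point.map (W' := W.toAffine) (RingHom.toRatAlgHom (σ : K →+* K))
        (Affine.Point.map (W' := W.toAffine) (RingHom.toRatAlgHom (algebraMap F K))
          (Affine.Point.some a b h)) =
        Affine.Point.map (W' := W.toAffine) (RingHom.toRatAlgHom (algebraMap F K))
          (Affine.Point.some a b h)
      have e : (RingHom.toRatAlgHom (σ : K →+* K)).comp (RingHom.toRatAlgHom (algebraMap F K)) =
          RingHom.toRatAlgHom (algebraMap F K) := by
        ext z
        exact σ.commutes z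
      rw [Affine.Point.map_map, e]

open Classical in
lemma finrank_fixed [IsGalois F K] (W : WeierstrassCurve ℚ) :
    letI := gaF F K W
    Module.finrank ℤ (FixedPoints.addSubgroup (K ≃ₐ[F] K) (W.baseChange K).toAffine.Point) =
      Module.finrank ℤ (W.baseChange F).toAffine.Point := by
  letI := gaF F K W
  rw [fixed_range F K W]
  exact (AddMonoidHom.ofInjective (jF_inj F K W)).toIntLinearEquiv.finrank_eq.symm

end

end Pool.Agent.K3h18.PV
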