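import Mathlib
import Pool.Agent.K3h18.PV.Fix

/-!
# Parity: fields of degree one
-/

set_option autoImplicit false

namespace Pool.Agent.K3h18.PV

open WeierstrassCurve

section

variable (F K : Type) [Field F] [NumberField F] [Field K] [NumberField K] [Algebra F K]

lemma surj_one (h : Module.finrank ℚ F = 1) (x : F) : ∃ r : ℚ, algebraMap ℚ F r = x := by
  have h1 : (⊥ : IntermediateField ℚ F) = ⊤ :=
    IntermediateField.bot_eq_top_iff_finrank_eq_one.2 h
  have h2 : x ∈ (⊥ : IntermediateField ℚ F) := by
    rw [h1]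
    trivial
  rw [IntermediateField.mem_bot] at h2
  exact h2

lemma gal_one (h : Module.finrank ℚ F = 1) [IsGalois F K] : IsGalois ℚ K := by
  have : IsScalarTower ℚ F K := IsScalarTower.of_algebraMap_eq' (Subsingleton.elim _ _)
  apply IsGalois.of_fixedField_eq_bot
  rw [eq_bot_iff]
  intro x hx
  rw [IntermediateField.mem_fixedField_iff] at hx
  have h1 := (IsGalois.mem_bot_iff_fixed (F := F) (E := K) x).2 fun σ =>
    hx (σ.restrictScalars ℚ) (Subgroup.mem_top _)
  rw [IntermediateField.mem_bot] at h1 ⊢
  obtain ⟨a, rfl⟩ := h1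
  obtain ⟨r, rfl⟩ := surj_one F h a
  exact ⟨r, IsScalarTower.algebraMap_apply ℚ F K r⟩

lemma deg_one (h : Module.finrank ℚ F = 1) : Module.finrank ℚ K = Module.finrank F K := by
  have : IsScalarTower ℚ F K := IsScalarTower.of_algebraMap_eq' (Subsingleton.elim _ _)
  rw [← Module.finrank_mul_finrank ℚ F K, h, one_mul]

open Classical in
lemma rank_one (h : Module.finrank ℚ F = 1) (W : WeierstrassCurve ℚ) :
    Module.finrank ℤ (W.baseChange F).toAffine.Point =
      Module.finrank ℤ (W.baseChange ℚ).toAffine.Point := by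
  let j : (W.baseChange ℚ).toAffine.Point →+ (W.baseChange F).toAffine.Point :=
    Affine.Point.map (W' := W.toAffine) (Algebra.ofId ℚ F)
  have hj : Function.Injective j := Affine.Point.map_injective _
  have hsurj : Function.Surjective j := by
    intro P
    rcases P with _ | ⟨x, y, hP⟩
    · exact ⟨0, rfl⟩
    · obtain ⟨a, rfl⟩ := surj_one F h x
      obtain ⟨b, rfl⟩ := surj_one F h y
      have h4 : (W.baseChange ℚ).toAffine.Nonsingular a b :=
        (W.toAffine.baseChange_nonsingular
          (f := Algebra.ofId ℚ F) (algebraMap ℚ F).injective a b).mp hP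
      exact ⟨Affine.Point.some a b h4, rfl⟩
  exact (AddEquiv.ofBijective j ⟨hj, hsurj⟩).toIntLinearEquiv.finrank_eq.symm

end

end Pool.Agent.K3h18.PV
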