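import Mathlib

/-!
# Parity: primes and places in a Galois extension of odd degree of a number field
-/

set_option autoImplicit false

namespace Pool.Agent.K3h18.PV

open NumberField Ideal

section rel

variable (F K : Type) [Field F] [NumberField F] [Field K] [NumberField K] [Algebra F K]

lemma odd_over [IsGalois F K] (hodd : Odd (Module.finrank F K)) (Q : Ideal (𝓞 F)) (hQ : Q.IsPrime) :
    Odd (primesOver Q (𝓞 K)).ncard ∧
      ∀ P ∈ primesOver Q (𝓞 K), Odd (P.inertiaDeg (𝓞 F)) := by
  have h := ncard_primesOver_mul_ramificationIdxIn_mul_inertiaDegIn Q (𝓞 K) Gal(K/F)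
  rw [IsGaloisGroup.card_eq_finrank Gal(K/F) F K] at h
  rw [← h] at hodd
  obtain ⟨h1, h2⟩ := Nat.odd_mul.1 hodd
  obtain ⟨h3, h4⟩ := Nat.odd_mul.1 h2
  refine ⟨h1, fun P hP => ?_⟩
  have : P.IsPrime := hP.1
  have : P.LiesOver Q := hP.2
  rw [inertiaDegIn_eq_inertiaDeg Q P Gal(K/F)] at h4
  exact h4

lemma even_inf [IsGalois F K] (hodd : Odd (Module.finrank F K))
    (h : Even (Nat.card (InfinitePlace F))) : Even (Nat.card (InfinitePlace K)) := by
  have : IsUnramifiedAtInfinitePlaces F K := IsUnramifiedAtInfinitePlaces_of_odd_finrank hodd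
  have h1 := IsUnramifiedAtInfinitePlaces.card_infinitePlace F K
  rw [Nat.card_eq_fintype_card] at h ⊢
  rw [h1]
  exact h.mul_right _

lemma even_primes [IsGalois F K] (hodd : Odd (Module.finrank F K)) {p : ℕ} (hp : p.Prime) :
    Even (primesOver (span {(p : ℤ)}) (𝓞 K)).ncard ↔
      Even (primesOver (span {(p : ℤ)}) (𝓞 F)).ncard := by
  classical
  have : Fact p.Prime := ⟨hp⟩
  have hmax : (span {(p : ℤ)}).IsMaximal := Int.ideal_span_isMaximal_of_prime p
  have : (span {(p : ℤ)}).IsPrime := hmax.isPrime
  have fF : (primesOver (span {(p : ℤ)}) (𝓞 F)).Finite := Set.toFinite _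
  have fK : (primesOver (span {(p : ℤ)}) (𝓞 K)).Finite := Set.toFinite _
  have e : (primesOver (span {(p : ℤ)}) (𝓞 K)) =
      ⋃ Q ∈ fF.toFinset, primesOver Q (𝓞 K) := by
    ext P
    simp only [Set.Finite.mem_toFinset, Set.mem_iUnion]
    constructor
    · intro hP
      have h1 : P.IsPrime := hP.1
      have h2 : P.LiesOver (span {(p : ℤ)}) := hP.2
      refine ⟨P.under (𝓞 F), ⟨inferInstance, ?_⟩, ⟨h1, ⟨rfl⟩⟩⟩
      exact LiesOver.tower_bot P (P.under (𝓞 F)) (span {(p : ℤ)})
    · rintro ⟨Q, hQ, hP⟩
      have h1 : P.IsPrime := hP.1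
      have h2 : P.LiesOver Q := hP.2
      have h3 : Q.LiesOver (span {(p : ℤ)}) := hQ.2
      exact ⟨h1, LiesOver.trans P Q (span {(p : ℤ)})⟩
  have hfin : ∀ Q ∈ fF.toFinset, (primesOver Q (𝓞 K)).Finite := by
    intro Q hQ
    refine fK.subset ?_
    rw [e]
    exact Set.subset_biUnion_of_mem (u := fun Q => primesOver Q (𝓞 K)) hQ
  have e2 : (primesOver (span {(p : ℤ)}) (𝓞 K)).ncard =
      ∑ Q ∈ fF.toFinset, (primesOver Q (𝓞 K)).ncard := by
    have e3 : fK.toFinset = fF.toFinset.attach.biUnion
        (fun Q => (hfin Q.1 Q.2).toFinset) := by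
      ext P
      rw [Set.Finite.mem_toFinset, e]
      simp only [Finset.mem_biUnion, Set.mem_iUnion, Set.Finite.mem_toFinset, Finset.mem_attach,
        true_and, Subtype.exists, exists_prop]
    rw [Set.ncard_eq_toFinset_card _ fK, e3, Finset.card_biUnion]
    · rw [Finset.sum_attach fF.toFinset (fun Q => (primesOver Q (𝓞 K)).ncard) |>.symm]
      refine Finset.sum_congr rfl fun Q _ => ?_
      rw [Set.ncard_eq_toFinset_card _ (hfin Q.1 Q.2)]
    · intro Q _ Q' _ hne
      rw [Function.onFun, Finset.disjoint_left]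
      intro P hP hP'
      rw [Set.Finite.mem_toFinset] at hP hP'
      apply hne
      apply Subtype.ext
      have h1 := hP.2.over
      have h2 := hP'.2.over
      exact h1.trans h2.symm
  rw [e2, Finset.even_sum_iff_even_card_odd]
  have e4 : fF.toFinset.filter (fun Q => Odd (primesOver Q (𝓞 K)).ncard) = fF.toFinset := by
    apply Finset.filter_true_of_mem
    intro Q hQ
    rw [Set.Finite.mem_toFinset] at hQ
    exact (odd_over F K hodd Q hQ.1).1
  rw [e4, ← Set.ncard_eq_toFinset_card _ fF]

end rel

section ff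

/-- the quadratic character in an extension of odd degree of a finite field -/
lemma char_ext {F K : Type} [Field F] [Fintype F] [DecidableEq F] [Field K] [Fintype K]
    [DecidableEq K] (φ : F →+* K) (hF : ringChar F ≠ 2) {n : ℕ} (hn : Odd n)
    (hq : Fintype.card K = Fintype.card F ^ n) (x : F) :
    quadraticChar K (φ x) = quadraticChar F x := by
  have hK : ringChar K ≠ 2 := by
    have : ringChar K = ringChar F := by
      have h1 : CharP K (ringChar F) := charP_of_injective_ringHom φ.injective (ringChar F)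
      exact ringChar.eq K (ringChar F)
    rw [this]
    exact hF
  have hodd : Odd (Fintype.card F) := FiniteField.odd_card_of_char_ne_two hF |> Nat.odd_iff.2
  obtain ⟨m, hm⟩ : ∃ m, m = ∑ i ∈ Finset.range n, Fintype.card F ^ i := ⟨_, rfl⟩
  have hmodd : Odd m := by
    rw [hm, Finset.odd_sum_iff_odd_card_odd]
    have : (Finset.range n).filter (fun i => Odd (Fintype.card F ^ i)) = Finset.range n := by
      apply Finset.filter_true_of_mem
      intro i _
      exact hodd.pow
    rw [this, Finset.card_range]
    exact hn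
  have h2c : 2 ≤ Fintype.card F := Fintype.one_lt_card
  have hgeo : m * (Fintype.card F - 1) = Fintype.card F ^ n - 1 := by
    rw [hm]
    have := Nat.geomSum_eq (m := Fintype.card F) h2c n
    rw [this]
    exact Nat.div_mul_cancel (Nat.sub_one_dvd_pow_sub_one _ n)
  have hq2 : Fintype.card K / 2 = Fintype.card F / 2 * m := by
    rw [hq]
    have h1 : 1 ≤ Fintype.card F ^ n := Nat.one_le_pow _ _ (by omega)
    have h2 : Fintype.card F - 1 = 2 * (Fintype.card F / 2) := by
      have := Nat.odd_iff.1 hodd
      omega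
    rw [h2] at hgeo
    have h3 : Fintype.card F ^ n = 2 * (Fintype.card F / 2 * m) + 1 := by
      have : m * (2 * (Fintype.card F / 2)) = 2 * (Fintype.card F / 2 * m) := by ring
      omega
    omega
  have h1 : ((quadraticChar K (φ x) : ℤ) : K) = (φ x) ^ (Fintype.card K / 2) :=
    quadraticChar_eq_pow_of_char_ne_two' hK _
  have h2 : ((quadraticChar F x : ℤ) : K) = (φ x) ^ (Fintype.card F / 2) := by
    have h3 : ((quadraticChar F x : ℤ) : F) = x ^ (Fintype.card F / 2) :=
      quadraticChar_eq_pow_of_char_ne_two' hF _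
    have h4 := congrArg φ h3
    rw [map_intCast, map_pow] at h4
    exact h4
  have h3 : ((quadraticChar F x : ℤ) : K) ^ m = ((quadraticChar F x : ℤ) : K) := by
    have h4 : (quadraticChar F x) ^ m = quadraticChar F x := by
      rcases quadraticChar_isQuadratic F x with h | h | h
      · rw [h, zero_pow hmodd.pos.ne']
      · rw [h, one_pow]
      · rw [h, hmodd.neg_one_pow]
    rw [← Int.cast_pow, h4]
  have h5 : ((quadraticChar K (φ x) : ℤ) : K) = ((quadraticChar F x : ℤ) : K) := by
    rw [h1, hq2, pow_mul, ← h2, h3]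
  have hinj : ∀ x y : ℤ, (x = 0 ∨ x = 1 ∨ x = -1) → (y = 0 ∨ y = 1 ∨ y = -1) →
      (x : K) = y → x = y := by
    intro x y hx hy hxy
    have h20 : (2 : K) ≠ 0 := by
      intro h
      exact hK (by
        have := (ringChar.spec K 2).1 (by exact_mod_cast h)
        rcases (Nat.dvd_prime Nat.prime_two).1 this with h | h
        · exact absurd h (CharP.ringChar_ne_one)
        · exact h)
    have h10 : (1 : K) ≠ 0 := one_ne_zero
    rcases hx with rfl | rfl | rfl <;> rcases hy with rfl | rfl | rfl <;> push_cast at hxy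
    all_goals first
      | rfl
      | exact absurd hxy.symm h10
      | exact absurd hxy h10
      | exact absurd (neg_eq_zero.1 hxy) h10
      | exact absurd (neg_eq_zero.1 hxy.symm) h10
      | exact absurd (by linear_combination hxy) h20
      | exact absurd (by linear_combination -hxy) h20
  exact hinj _ _ (quadraticChar_isQuadratic K _) (quadraticChar_isQuadratic F _) h5

end ff

end Pool.Agent.K3h18.PV
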