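import Mathlib
import Pool.Agent.K3h18.PV.Rel

/-!
# Parity: quadratic fields, lemmas
-/

set_option autoImplicit false

namespace Pool.Agent.K3h18.PV

open NumberField Ideal

/-- the quadratic character of an integer over a field of even degree over the prime field -/
lemma char_even {F : Type} [Field F] [Fintype F] [DecidableEq F] {p : ℕ} [Fact p.Prime]
    (hp2 : p ≠ 2) [CharP F p] {f : ℕ} (hf : Even f)
    (hq : Fintype.card F = p ^ f) (n : ℤ) :
    quadraticChar F (n : F) = 0 ∨ quadraticChar F (n : F) = 1 := by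
  have hp : p.Prime := Fact.out
  have hF : ringChar F ≠ 2 := by
    rw [ringChar.eq F p]
    exact hp2
  have hp1 : p % 2 = 1 := hp.eq_two_or_odd.resolve_left hp2
  obtain ⟨m, hm⟩ : ∃ m, m = ∑ i ∈ Finset.range f, p ^ i := ⟨_, rfl⟩
  have hmeven : Even m := by
    rw [hm, Finset.even_sum_iff_even_card_odd]
    have : (Finset.range f).filter (fun i => Odd (p ^ i)) = Finset.range f := by
      apply Finset.filter_true_of_mem
      intro i _
      exact (Nat.odd_iff.2 hp1).pow
    rw [this, Finset.card_range]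
    exact hf
  have hgeo : m * (p - 1) = p ^ f - 1 := by
    rw [hm]
    have := Nat.geomSum_eq (m := p) hp.two_le f
    rw [this]
    exact Nat.div_mul_cancel (Nat.sub_one_dvd_pow_sub_one p f)
  have hq2 : Fintype.card F / 2 = p / 2 * m := by
    rw [hq]
    have h1 : 1 ≤ p ^ f := Nat.one_le_pow _ _ hp.pos
    have h2 : p - 1 = 2 * (p / 2) := by omega
    rw [h2] at hgeo
    have h3 : p ^ f = 2 * (p / 2 * m) + 1 := by
      have : m * (2 * (p / 2)) = 2 * (p / 2 * m) := by ring
      omega
    omega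
  have h1 : ((quadraticChar F (n : F) : ℤ) : F) = (n : F) ^ (Fintype.card F / 2) :=
    quadraticChar_eq_pow_of_char_ne_two' hF _
  have h2 : ((jacobiSym n p : ℤ) : F) = (n : F) ^ (p / 2) := by
    rw [← jacobiSym.legendreSym.to_jacobiSym]
    have h3 : ((legendreSym p n : ℤ) : ZMod p) = (n : ZMod p) ^ (p / 2) := legendreSym.eq_pow p n
    have h4 := congrArg (ZMod.castHom (dvd_refl p) F) h3
    rw [map_pow, map_intCast, map_intCast] at h4
    exact h4
  rw [hq2, pow_mul, ← h2] at h1
  obtain ⟨k, hk⟩ := hmeven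
  have h5 : ((jacobiSym n p : ℤ) : F) ^ m = 0 ∨ ((jacobiSym n p : ℤ) : F) ^ m = 1 := by
    rcases jacobiSym.trichotomy n p with h | h | h
    · by_cases hm0 : m = 0
      · right; rw [hm0, pow_zero]
      · left; rw [h, Int.cast_zero, zero_pow hm0]
    · right; rw [h, Int.cast_one, one_pow]
    · right; rw [h, hk, ← two_mul, pow_mul]
      push_cast
      rw [neg_one_sq, one_pow]
  have h20 : (2 : F) ≠ 0 := by
    intro h
    exact hF (by
      have := (ringChar.spec F 2).1 (by exact_mod_cast h)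
      rcases (Nat.dvd_prime Nat.prime_two).1 this with h | h
      · exact absurd h (CharP.ringChar_ne_one)
      · exact h)
  rcases quadraticChar_isQuadratic F (n : F) with h | h | h
  · exact Or.inl h
  · exact Or.inr h
  · exfalso
    rw [h] at h1
    push_cast at h1
    rcases h5 with h6 | h6
    · rw [h6] at h1
      exact one_ne_zero (neg_eq_zero.1 h1)
    · rw [h6] at h1
      exact h20 (by linear_combination -h1)

/-- the Jacobi symbol of a product -/
lemma jac_prod {ι : Type} (a : ℤ) (S : Finset ι) (f : ι → ℕ) (hf : ∀ i ∈ S, f i ≠ 0) :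
    jacobiSym a (∏ i ∈ S, f i) = ∏ i ∈ S, jacobiSym a (f i) := by
  classical
  induction S using Finset.induction_on with
  | empty => simp
  | insert i S hi ih =>
    rw [Finset.prod_insert hi, Finset.prod_insert hi]
    have h1 : f i ≠ 0 := hf i (Finset.mem_insert_self _ _)
    have h2 : ∏ j ∈ S, f j ≠ 0 := Finset.prod_ne_zero_iff.2 fun j hj =>
      hf j (Finset.mem_insert_of_mem hj)
    have : NeZero (f i) := ⟨h1⟩
    have : NeZero (∏ j ∈ S, f j) := ⟨h2⟩
    rw [jacobiSym.mul_right, ih fun j hj => hf j (Finset.mem_insert_of_mem hj)]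

lemma jac_prod_left {ι : Type} (n : ℕ) (S : Finset ι) (f : ι → ℤ) :
    jacobiSym (∏ i ∈ S, f i) n = ∏ i ∈ S, jacobiSym (f i) n := by
  classical
  induction S using Finset.induction_on with
  | empty => simp
  | insert i S hi ih =>
    rw [Finset.prod_insert hi, Finset.prod_insert hi, jacobiSym.mul_left, ih]

/-- the Jacobi symbol modulo `q` of the product of three numbers of the classes `1`, `-1`, `1 / 16` -/
lemma jac_class {q : ℕ} (hq : q.Prime) (h8 : q % 8 = 1) {a b c : ℕ} (ha : a % q = 1)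
    (hb : (b + 1) % q = 0) (hc : (a : ℤ) - b = 32 * c) : jacobiSym ((a * b * c : ℕ) : ℤ) q = 1 := by
  have : Fact q.Prime := ⟨hq⟩
  have hodd : Odd q := Nat.odd_iff.2 (by omega)
  have e1 : jacobiSym (a : ℤ) q = 1 := by
    rw [jacobiSym.mod_left, ← Int.natCast_mod, ha]
    simp
  have hb' : (q : ℤ) ∣ (b : ℤ) + 1 := by
    have := Nat.dvd_of_mod_eq_zero hb
    exact_mod_cast this
  have e2 : jacobiSym (b : ℤ) q = 1 := by
    have h1 : (b : ℤ) % q = (-1) % q := by
      rw [Int.emod_emod_of_dvd _ (dvd_refl _) |>.symm]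
      apply Int.ModEq.symm
      rw [Int.modEq_iff_dvd]
      have : (b : ℤ) % q - -1 = ((b : ℤ) + 1) - q * ((b : ℤ) / q) := by
        have := Int.emod_add_mul_ediv (b : ℤ) q
        linarith
      rw [this]
      exact dvd_sub hb' (dvd_mul_right _ _)
    rw [jacobiSym.mod_left, h1, ← jacobiSym.mod_left, jacobiSym.at_neg_one hodd]
    rw [ZMod.χ₄_nat_mod_four]
    have : q % 4 = 1 := by omega
    rw [this]
    rfl
  have ha' : (q : ℤ) ∣ (a : ℤ) - 1 := by
    have h1 : (a : ℤ) % q = 1 := by exact_mod_cast ha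
    have h2 := Int.emod_add_mul_ediv (a : ℤ) q
    exact ⟨(a : ℤ) / q, by linarith⟩
  have hc' : (q : ℤ) ∣ 16 * (c : ℤ) - 1 := by
    have h1 : (q : ℤ) ∣ 2 * (16 * (c : ℤ) - 1) := by
      have : 2 * (16 * (c : ℤ) - 1) = ((a : ℤ) - 1) - ((b : ℤ) + 1) := by linarith
      rw [this]
      exact dvd_sub ha' hb'
    rcases (Nat.prime_iff_prime_int.1 hq).dvd_or_dvd h1 with h | h
    · exfalso
      have h2 : q ∣ 2 := by exact_mod_cast h
      have := (Nat.prime_dvd_prime_iff_eq hq Nat.prime_two).1 h2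
      omega
    · exact h
  have e3 : jacobiSym (c : ℤ) q = 1 := by
    have h4 : jacobiSym (16 * (c : ℤ)) q = 1 := by
      have h1 : (16 * (c : ℤ)) % q = 1 % q := by
        apply Int.ModEq.symm
        rw [Int.modEq_iff_dvd]
        exact hc'
      rw [jacobiSym.mod_left, h1, ← jacobiSym.mod_left, jacobiSym.one_left]
    have h5 : jacobiSym (16 : ℤ) q = 1 := by
      have : (16 : ℤ) = 4 ^ 2 := by norm_num
      rw [this]
      apply jacobiSym.sq_one'
      have h6 : Nat.Coprime 4 q := by
        have : Nat.Coprime (2 ^ 2) q := Nat.Coprime.pow_left 2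
          ((Nat.coprime_primes Nat.prime_two hq).2 (by omega))
        exact this
      exact h6
    rw [jacobiSym.mul_left, h5, one_mul] at h4
    exact h4
  push_cast
  rw [jacobiSym.mul_left, jacobiSym.mul_left, e1, e2, e3]
  norm_num

/-- quadratic reciprocity for `D = q q'` -/
lemma jac_recip {q q' : ℕ} (h8 : q % 8 = 1) (h8' : q' % 8 = 1) {M : ℕ} (hM : Odd M)
    (h1 : jacobiSym (M : ℤ) q = 1) (h2 : jacobiSym (M : ℤ) q' = 1) :
    jacobiSym ((q * q' : ℕ) : ℤ) M = 1 := by
  push_cast
  rw [jacobiSym.mul_left, jacobiSym.quadratic_reciprocity_one_mod_four (by omega) hM,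
    jacobiSym.quadratic_reciprocity_one_mod_four (by omega) hM, h1, h2]
  norm_num

end Pool.Agent.K3h18.PV
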