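import Mathlib
import Pool.Agent.K3h18.PV.Rel
import Pool.Agent.K3h18.PV.Fix
import Pool.Agent.Y667.QKE.Glob
import Pool.Agent.Y667.OG.Rank
import Pool.Agent.Y837.QKE.MUL

/-!
# Parity: root numbers over the Galois extensions of odd degree of a Galois number field
-/

set_option autoImplicit false

namespace Pool.Agent.K3h18.PV

open Finset NumberField Ideal Pool.Agent.Y667.PA Pool.Agent.Y667.OG Pool.Agent.Y285.RP
  Pool.Agent.Y667.QK Pool.Agent.Y667.QK.EV Pool.Agent.Y837.QKE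

/-- `a` over every field of odd characteristic `p` is the quadratic character of one integer -/
lemma aF_int {τ : ℕ} {s : Fin 3 → ℕ} (hτ8 : τ % 8 = 1) (h : DP s)
    {p : ℕ} (hp : p ∈ (∏ j, s j).primeFactors) : ∃ n : ℤ,
    ∀ (F : Type) [Field F] [Fintype F] [DecidableEq F] [CharP F p],
      aF F (Vm ((τ : ℤ) * s 1) ((τ : ℤ) * s 2)) = quadraticChar F (n : F) := by
  have m8' : (s 1 : ℤ) % 8 = 1 := by have := h.m1; omega
  have hτ8' : (τ : ℤ) % 8 = 1 := by omega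
  have m8 : ((τ : ℤ) * s 1) % 8 = 1 := by rw [Int.mul_emod, hτ8', m8']; norm_num
  have hb : ((τ : ℤ) * s 1) % 4 = 1 := by omega
  have hpp := Nat.prime_of_mem_primeFactors hp
  have hpd := Nat.dvd_of_mem_primeFactors hp
  have : Fact p.Prime := ⟨hpp⟩
  have hp2 := h.pne hp
  obtain ⟨j, -, hj⟩ := (hpp.prime.dvd_finsetProd_iff _).1 hpd
  rcases fin3 j with rfl | rfl | rfl
  · refine ⟨32 * (τ * s 2), fun F _ _ _ _ => ?_⟩
    have hj' : ((s 0 : ℕ) : F) = 0 := (CharP.cast_eq_zero_iff F p _).2 hj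
    have ha : (s 0 : F) = s 1 + 32 * s 2 := by
      have := congrArg (Int.cast : ℤ → F) h.a_eq
      push_cast at this
      exact this
    rw [node_aF' hp2 hb (8 * ((τ : F) * s 2)) 4 0 (four_ne' hp2)]
    · congr 1
      push_cast
      ring
    · intro x
      push_cast
      rw [hj'] at ha
      linear_combination (-(x * (x - 8 * (τ * s 2)) * τ)) * ha
  · refine ⟨-(32 * (τ * s 2)), fun F _ _ _ _ => ?_⟩
    have hj' : ((s 1 : ℕ) : F) = 0 := (CharP.cast_eq_zero_iff F p _).2 hj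
    rw [node_aF' hp2 hb 0 4 (-(32 * ((τ : F) * s 2))) (four_ne' hp2)]
    · congr 1
      push_cast
      ring
    · intro x
      push_cast
      linear_combination x * (x - 8 * (τ * s 2)) * τ * hj'
  · refine ⟨τ * s 1, fun F _ _ _ _ => ?_⟩
    have hj' : ((s 2 : ℕ) : F) = 0 := (CharP.cast_eq_zero_iff F p _).2 hj
    rw [node_aF' hp2 hb 0 4 ((τ : F) * s 1) (four_ne' hp2)]
    · congr 1
      push_cast
      ring
    · intro x
      push_cast
      linear_combination (-8) * x * (4 * x + τ * s 1) * τ * hj'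

lemma aF_ext {τ : ℕ} {s : Fin 3 → ℕ} (hτ8 : τ % 8 = 1) (h : DP s)
    {p : ℕ} (hp : p ∈ insert 2 (∏ j, s j).primeFactors)
    (F K : Type) [Field F] [Fintype F] [Field K] [Fintype K] [CharP F p] (φ : F →+* K)
    {n : ℕ} (hn : Odd n) (hq : Fintype.card K = Fintype.card F ^ n) :
    aF K (Vm ((τ : ℤ) * s 1) ((τ : ℤ) * s 2)) = aF F (Vm ((τ : ℤ) * s 1) ((τ : ℤ) * s 2)) := by
  classical
  have m8' : (s 1 : ℤ) % 8 = 1 := by have := h.m1; omega
  have hτ8' : (τ : ℤ) % 8 = 1 := by omega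
  have m8 : ((τ : ℤ) * s 1) % 8 = 1 := by rw [Int.mul_emod, hτ8', m8']; norm_num
  have hch : CharP K p := charP_of_injective_ringHom φ.injective p
  rw [mem_insert] at hp
  rcases hp with rfl | hp
  · rw [aF_two (F := F) m8, aF_two (F := K) m8]
  · obtain ⟨c, hc⟩ := aF_int hτ8 h hp
    have hp2 := h.pne hp
    rw [hc F, hc K, ← map_intCast φ c]
    refine char_ext φ ?_ hn hq _
    rw [ringChar.eq F p]
    exact hp2

section

variable (F K : Type) [Field F] [NumberField F] [Field K] [NumberField K] [Algebra F K]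

lemma under_mem {p : ℕ} {P : Ideal (𝓞 K)} (hP : P ∈ primesOver (span {(p : ℤ)}) (𝓞 K)) :
    P.under (𝓞 F) ∈ primesOver (span {(p : ℤ)}) (𝓞 F) := by
  have h1 : P.IsPrime := hP.1
  have h2 : P.LiesOver (span {(p : ℤ)}) := hP.2
  exact ⟨inferInstance, LiesOver.tower_bot P (P.under (𝓞 F)) (span {(p : ℤ)})⟩

/-- the residue fields -/
lemma res_card [IsGalois F K] (hodd : Odd (Module.finrank F K)) {p : ℕ} (hp : p.Prime)
    {P : Ideal (𝓞 K)} (hP : P ∈ primesOver (span {(p : ℤ)}) (𝓞 K)) :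
    ∃ n : ℕ, Odd n ∧ Nat.card (𝓞 K ⧸ P) = Nat.card (𝓞 F ⧸ P.under (𝓞 F)) ^ n := by
  have hQ := under_mem F K hP
  have h1 : P.IsPrime := hP.1
  have h2 : P.LiesOver (span {(p : ℤ)}) := hP.2
  have h3 : (P.under (𝓞 F)).IsPrime := hQ.1
  have h4 : (P.under (𝓞 F)).LiesOver (span {(p : ℤ)}) := hQ.2
  have hP0 := over_ne hp hP
  have hQ0 := over_ne hp hQ
  refine ⟨P.inertiaDeg (𝓞 F), (odd_over F K hodd (P.under (𝓞 F)) h3).2 P ⟨h1, ⟨rfl⟩⟩, ?_⟩
  rw [card_quot P h1 hP0, card_quot _ h3 hQ0, below_eq hp hP, below_eq hp hQ, ← pow_mul]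
  congr 1
  exact inertiaDeg_tower (R := ℤ) (P.under (𝓞 F)) P

/-- The local root numbers at the primes over a prime of multiplicative reduction are all equal, and
the primes of good reduction. -/
theorem MULV {τ : ℕ} {s : Fin 3 → ℕ} (hA : AdT τ) (h : DP s) (hcop : Nat.Coprime τ (∏ j, s j))
    {k : ℤ} (hk : (s 0 : ℤ) + s 1 = 3 * k) [IsGalois ℚ F] [IsGalois F K]
    (hodd : Odd (Module.finrank F K)) :
    (∀ p ∈ insert 2 (∏ j, s j).primeFactors, ∃ w : ℤ, (w = 1 ∨ w = -1) ∧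
      (∀ Q ∈ primesOver (span {(p : ℤ)}) (𝓞 F),
        w = -aP ((Vm ((τ : ℤ) * s 1) ((τ : ℤ) * s 2)).map (Int.castRingHom (𝓞 F))) Q) ∧
      ∀ P ∈ primesOver (span {(p : ℤ)}) (𝓞 K),
        LocalRootK ((⟨0, 0, 0, ((cc ((τ : ℤ) * s 0) ((τ : ℤ) * s 1) ((τ : ℤ) * k)).1 : ℚ),
          ((cc ((τ : ℤ) * s 0) ((τ : ℤ) * s 1) ((τ : ℤ) * k)).2 : ℚ)⟩ : WeierstrassCurve ℚ).map
            (algebraMap ℚ K)) P w) ∧
    ∀ P : Ideal (𝓞 K), P.IsPrime → P ≠ ⊥ → ¬ below P ∣ τ →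
      below P ∉ insert 2 (∏ j, s j).primeFactors →
        LocalRootK ((⟨0, 0, 0, ((cc ((τ : ℤ) * s 0) ((τ : ℤ) * s 1) ((τ : ℤ) * k)).1 : ℚ),
          ((cc ((τ : ℤ) * s 0) ((τ : ℤ) * s 1) ((τ : ℤ) * k)).2 : ℚ)⟩ : WeierstrassCurve ℚ).map
            (algebraMap ℚ K)) P 1 := by
  classical
  have hτ8 : τ % 8 = 1 := Pool.Agent.Y858.QK.mod8 hA.sqf hA.m8
  have m8' : (s 1 : ℤ) % 8 = 1 := by have := h.m1; omega
  have hτ8' : (τ : ℤ) % 8 = 1 := by omega
  have m8 : ((τ : ℤ) * s 1) % 8 = 1 := by rw [Int.mul_emod, hτ8', m8']; norm_num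
  have hb : ((τ : ℤ) * s 1) % 4 = 1 := by omega
  have hb0 : (s 1 : ℤ) % 4 = 1 := by omega
  have e : ((τ : ℤ) * s 1) + 32 * ((τ : ℤ) * s 2) = τ * s 0 := by
    rw [h.a_eq]; ring
  have hm : ModelOf ⟨0, 0, 0, ((cc ((τ : ℤ) * s 0) ((τ : ℤ) * s 1) ((τ : ℤ) * k)).1 : ℚ),
      ((cc ((τ : ℤ) * s 0) ((τ : ℤ) * s 1) ((τ : ℤ) * k)).2 : ℚ)⟩
      (Vm ((τ : ℤ) * s 1) ((τ : ℤ) * s 2)) := by
    have := cc_model (b := (τ : ℤ) * s 1) (c := (τ : ℤ) * s 2) (k := τ * k) hb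
      (by rw [e]; linear_combination (τ : ℤ) * hk)
    rw [e] at this
    exact this
  have hmK := model_map (K := K) hm
  have hD : (Vm ((τ : ℤ) * s 1) ((τ : ℤ) * s 2)).Δ = τ ^ 6 * (Vm (s 1) (s 2)).Δ := by
    rw [Vm_disc hb, Vm_disc hb0]
    ring
  have hc4 : (Vm ((τ : ℤ) * s 1) ((τ : ℤ) * s 2)).c₄ = τ ^ 2 * (Vm (s 1) (s 2)).c₄ := by
    rw [Vm_c4 hb, Vm_c4 hb0]
    ring
  have hd0 : (Vm (s 1) (s 2)).Δ ≠ 0 := h.semi.1
  have hpr : ∀ p : ℕ, p.Prime → ((p : ℤ) ∣ (Vm (s 1) (s 2)).Δ ↔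
      p ∈ insert 2 (∏ j, s j).primeFactors) := by
    intro p hp
    rw [← h.primes, Nat.mem_primeFactors]
    exact ⟨fun h => ⟨hp, Int.natCast_dvd.1 h, Int.natAbs_ne_zero.2 hd0⟩,
      fun h => Int.natCast_dvd.2 h.2.1⟩
  have hne : ∀ p : ℕ, p.Prime → ¬ p ∣ τ → ∀ n : ℕ, ∀ x : ℤ, (p : ℤ) ∣ (τ : ℤ) ^ n * x →
      (p : ℤ) ∣ x := by
    intro p hp hpt n x hx
    rcases (Nat.prime_iff_prime_int.1 hp).dvd_or_dvd hx with h | h
    · exact absurd (Int.natCast_dvd_natCast.1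
        ((Nat.prime_iff_prime_int.1 hp).dvd_of_dvd_pow h)) hpt
    · exact h
  constructor
  · intro p hp
    have hpp : p.Prime := by
      rcases mem_insert.1 hp with rfl | hp
      · exact Nat.prime_two
      · exact Nat.prime_of_mem_primeFactors hp
    have hpτ : ¬ p ∣ τ := by
      intro h1
      rcases mem_insert.1 hp with rfl | hp
      · omega
      · have := Nat.dvd_gcd h1 (Nat.dvd_of_mem_primeFactors hp)
        rw [hcop] at this
        exact hpp.one_lt.ne' (Nat.dvd_one.1 this)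
    by_cases hex : ∃ Q0, Q0 ∈ primesOver (span {(p : ℤ)}) (𝓞 F)
    · obtain ⟨Q0, hQ0⟩ := hex
      have hfinF : ∀ Q ∈ primesOver (span {(p : ℤ)}) (𝓞 F), Finite (𝓞 F ⧸ Q) := by
        intro Q hQ
        apply Nat.finite_of_card_ne_zero
        rw [card_quot Q hQ.1 (over_ne hpp hQ), below_eq hpp hQ]
        exact pow_ne_zero _ hpp.ne_zero
      have h1 : ∀ P ∈ primesOver (span {(p : ℤ)}) (𝓞 K),
          aP ((Vm ((τ : ℤ) * s 1) ((τ : ℤ) * s 2)).map (Int.castRingHom (𝓞 K))) P =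
          aP ((Vm ((τ : ℤ) * s 1) ((τ : ℤ) * s 2)).map (Int.castRingHom (𝓞 F))) Q0 := by
        intro P hP
        have hQ := under_mem F K hP
        have hPm : P.IsMaximal := hP.1.isMaximal (over_ne hpp hP)
        have hQm : (P.under (𝓞 F)).IsMaximal := hQ.1.isMaximal (over_ne hpp hQ)
        have hQ0m : Q0.IsMaximal := hQ0.1.isMaximal (over_ne hpp hQ0)
        letI : Field (𝓞 K ⧸ P) := Ideal.Quotient.field P
        letI : Field (𝓞 F ⧸ P.under (𝓞 F)) := Ideal.Quotient.field _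
        letI : Field (𝓞 F ⧸ Q0) := Ideal.Quotient.field Q0
        obtain ⟨eq⟩ := quot_equiv hpp (P.under (𝓞 F)) Q0 hQ hQ0
        rw [aP_eq, aP_eq, ← aF_congr eq]
        have fK : Finite (𝓞 K ⧸ P) := by
          apply Nat.finite_of_card_ne_zero
          rw [card_quot P hP.1 (over_ne hpp hP), below_eq hpp hP]
          exact pow_ne_zero _ hpp.ne_zero
        have fF : Finite (𝓞 F ⧸ P.under (𝓞 F)) := hfinF _ hQ
        letI : Fintype (𝓞 K ⧸ P) := Fintype.ofFinite _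
        letI : Fintype (𝓞 F ⧸ P.under (𝓞 F)) := Fintype.ofFinite _
        have hch : CharP (𝓞 F ⧸ P.under (𝓞 F)) p := by
          have := charP_quot (P.under (𝓞 F))
          rwa [below_eq hpp hQ] at this
        obtain ⟨n, hn, hcard⟩ := res_card F K hodd hpp hP
        rw [Nat.card_eq_fintype_card, Nat.card_eq_fintype_card] at hcard
        exact aF_ext hτ8 h hp (𝓞 F ⧸ P.under (𝓞 F)) (𝓞 K ⧸ P)
          (Ideal.quotientMap P (algebraMap (𝓞 F) (𝓞 K)) le_rfl) hn hcard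
      have h1' : ∀ Q ∈ primesOver (span {(p : ℤ)}) (𝓞 F),
          aP ((Vm ((τ : ℤ) * s 1) ((τ : ℤ) * s 2)).map (Int.castRingHom (𝓞 F))) Q =
          aP ((Vm ((τ : ℤ) * s 1) ((τ : ℤ) * s 2)).map (Int.castRingHom (𝓞 F))) Q0 := by
        intro Q hQ
        have hQm : Q.IsMaximal := hQ.1.isMaximal (over_ne hpp hQ)
        have hQ0m : Q0.IsMaximal := hQ0.1.isMaximal (over_ne hpp hQ0)
        letI : Field (𝓞 F ⧸ Q) := Ideal.Quotient.field Q
        letI : Field (𝓞 F ⧸ Q0) := Ideal.Quotient.field Q0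
        obtain ⟨eq⟩ := quot_equiv hpp Q Q0 hQ hQ0
        rw [aP_eq, aP_eq]
        exact aF_congr eq _
      refine ⟨-aP ((Vm ((τ : ℤ) * s 1) ((τ : ℤ) * s 2)).map (Int.castRingHom (𝓞 F))) Q0, ?_,
        fun Q hQ => by rw [h1' Q hQ], ?_⟩
      · have hQ00 := over_ne hpp hQ0
        have hQm : Q0.IsMaximal := hQ0.1.isMaximal hQ00
        letI : Field (𝓞 F ⧸ Q0) := Ideal.Quotient.field Q0
        have hfin : Finite (𝓞 F ⧸ Q0) := hfinF Q0 hQ0
        letI : Fintype (𝓞 F ⧸ Q0) := Fintype.ofFinite _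
        have hch : CharP (𝓞 F ⧸ Q0) p := by
          have := charP_quot Q0
          rwa [below_eq hpp hQ0] at this
        rw [aP_eq]
        rcases aF_pm hτ8 h hcop hp (𝓞 F ⧸ Q0) with h2 | h2
        · right; rw [h2]
        · left; rw [h2]; norm_num
      · intro P hP
        refine Or.inr (Or.inl ⟨_, hmK, ?_, ?_, ?_⟩)
        · rw [WeierstrassCurve.map_Δ, int_mem, below_eq hpp hP, hD]
          exact ((hpr p hpp).2 hp).mul_left _
        · rw [WeierstrassCurve.map_c₄, int_mem, below_eq hpp hP, hc4]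
          intro hd
          exact h.semi.2 p hpp ((hpr p hpp).2 hp) (hne p hpp hpτ 2 _ hd)
        · rw [h1 P hP]
    · exact ⟨1, Or.inl rfl, fun Q hQ => absurd ⟨Q, hQ⟩ hex,
        fun P hP => absurd ⟨_, under_mem F K hP⟩ hex⟩
  · intro P hP1 hP2 hPτ hPn
    have hpp := below_prime P hP1 hP2
    refine Or.inl ⟨_, hmK, ?_, rfl⟩
    rw [WeierstrassCurve.map_Δ, int_mem, hD]
    intro hd
    exact hPn ((hpr _ hpp).1 (hne _ hpp hPτ 6 _ hd))

/-- the root number over `K` is a product over the bad primes -/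
theorem rootG (hT : St_TAU) {τ : ℕ} {s : Fin 3 → ℕ} (hA : AdT τ) (hD : DP s)
    (hc : Nat.Coprime τ (∏ j, s j)) {k : ℤ} (hk : (s 0 : ℤ) + s 1 = 3 * k)
    [IsGalois ℚ F] [IsGalois F K] (hodd : Odd (Module.finrank F K))
    (hinf : Even (Nat.card (InfinitePlace F)))
    (hg : ∀ w : ℕ → ℤ, (∀ p ∈ insert 2 (∏ j, s j).primeFactors, (w p = 1 ∨ w p = -1) ∧
      ∀ Q ∈ primesOver (span {(p : ℤ)}) (𝓞 F),
        w p = -aP ((Vm ((τ : ℤ) * s 1) ((τ : ℤ) * s 2)).map (Int.castRingHom (𝓞 F))) Q) →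
      ∏ p ∈ insert 2 (∏ j, s j).primeFactors,
        w p ^ (primesOver (span {(p : ℤ)}) (𝓞 K)).ncard = 1) :
    RootNumberK ((⟨0, 0, 0, ((cc ((τ : ℤ) * s 0) ((τ : ℤ) * s 1) ((τ : ℤ) * k)).1 : ℚ),
      ((cc ((τ : ℤ) * s 0) ((τ : ℤ) * s 1) ((τ : ℤ) * k)).2 : ℚ)⟩ : WeierstrassCurve ℚ).map
        (algebraMap ℚ K)) 1 := by
  classical
  have hinfK : Even (Nat.card (InfinitePlace K)) := even_inf F K hodd hinf
  obtain ⟨hm1, hm2⟩ := MULV F K hA hD hc hk hodd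
  have hTK := hT τ s hA hD hc k hk K
  obtain ⟨S, hSdef⟩ : ∃ S, S = insert 2 (∏ j, s j).primeFactors := ⟨_, rfl⟩
  rw [← hSdef] at hm1 hm2 hg
  have hSp : ∀ p ∈ S, p.Prime := by
    intro p hp
    rw [hSdef, mem_insert] at hp
    rcases hp with rfl | hp
    · exact Nat.prime_two
    · exact Nat.prime_of_mem_primeFactors hp
  have hex : ∀ p : ℕ, ∃ w : ℤ, p ∈ S → (w = 1 ∨ w = -1) ∧
      (∀ Q ∈ primesOver (span {(p : ℤ)}) (𝓞 F),
        w = -aP ((Vm ((τ : ℤ) * s 1) ((τ : ℤ) * s 2)).map (Int.castRingHom (𝓞 F))) Q) ∧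
      ∀ P ∈ primesOver (span {(p : ℤ)}) (𝓞 K),
        LocalRootK ((⟨0, 0, 0, ((cc ((τ : ℤ) * s 0) ((τ : ℤ) * s 1) ((τ : ℤ) * k)).1 : ℚ),
          ((cc ((τ : ℤ) * s 0) ((τ : ℤ) * s 1) ((τ : ℤ) * k)).2 : ℚ)⟩ : WeierstrassCurve ℚ).map
            (algebraMap ℚ K)) P w := by
    intro p
    by_cases hp : p ∈ S
    · obtain ⟨w, hw⟩ := hm1 p hp
      exact ⟨w, fun _ => hw⟩
    · exact ⟨0, fun h => absurd h hp⟩
  choose w hw using hex
  obtain ⟨T, hTs⟩ : ∃ T : ℕ → Finset (Ideal (𝓞 K)), ∀ p ∈ S,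
      (T p : Set (Ideal (𝓞 K))) = primesOver (span {(p : ℤ)}) (𝓞 K) := by
    refine ⟨fun p => if h : p ∈ S then (finite_over (K := K) p (hSp p h)).toFinset else ∅,
      fun p hp => ?_⟩
    simp only [dif_pos hp, Set.Finite.coe_toFinset]
  have hmem : ∀ p ∈ S, ∀ P, P ∈ T p ↔ P ∈ primesOver (span {(p : ℤ)}) (𝓞 K) := by
    intro p hp P
    rw [← hTs p hp, mem_coe]
  refine ⟨fun P => if below P ∈ S then w (below P) else 1, ?_, S.biUnion T, ?_, ?_, ?_⟩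
  · intro P hP1 hP2
    by_cases h : below P ∈ S
    · simp only [if_pos h]
      exact (hw _ h).2.2 P (below_mem P hP1)
    · simp only [if_neg h]
      by_cases h2 : below P ∣ τ
      · exact hTK P hP1 hP2 h2
      · exact hm2 P hP1 hP2 h2 h
  · intro P hP
    obtain ⟨p, hp, hPp⟩ := mem_biUnion.1 hP
    rw [hmem p hp] at hPp
    exact ⟨hPp.1, over_ne (hSp p hp) hPp⟩
  · intro P hP1 hP2 hn
    refine if_neg fun hS' => hn ?_
    exact mem_biUnion.2 ⟨below P, hS', (hmem _ hS' P).2 (below_mem P hP1)⟩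
  · rw [hinfK.neg_one_pow, one_mul, prod_biUnion]
    · refine (hg w fun p hp => ⟨(hw p hp).1, (hw p hp).2.1⟩).symm.trans ?_
      refine prod_congr rfl fun p hp => ?_
      have h3 : ∀ P ∈ T p, (if below P ∈ S then w (below P) else 1) = w p := by
        intro P hP
        rw [hmem p hp] at hP
        rw [below_eq (hSp p hp) hP, if_pos hp]
      have h4 : (T p).card = (primesOver (span {(p : ℤ)}) (𝓞 K)).ncard := by
        rw [← hTs p hp, Set.ncard_coe_finset]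
      rw [prod_congr rfl h3, prod_const, h4]
    · intro p hp q hq hpq
      rw [Function.onFun, Finset.disjoint_left]
      intro P hP hQ
      rw [hmem p hp] at hP
      rw [hmem q hq] at hQ
      exact hpq ((below_eq (hSp p hp) hP).symm.trans (below_eq (hSp q hq) hQ))

/-- the root number over `K` is one -/
theorem rootV (hT : St_TAU) {τ : ℕ} {s : Fin 3 → ℕ} (hA : AdT τ) (hD : DP s)
    (hc : Nat.Coprime τ (∏ j, s j)) {k : ℤ} (hk : (s 0 : ℤ) + s 1 = 3 * k)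
    [IsGalois ℚ F] [IsGalois F K] (hodd : Odd (Module.finrank F K))
    (hinf : Even (Nat.card (InfinitePlace F)))
    (hg : ∀ p ∈ insert 2 (∏ j, s j).primeFactors,
      Even (primesOver (span {(p : ℤ)}) (𝓞 F)).ncard) :
    RootNumberK ((⟨0, 0, 0, ((cc ((τ : ℤ) * s 0) ((τ : ℤ) * s 1) ((τ : ℤ) * k)).1 : ℚ),
      ((cc ((τ : ℤ) * s 0) ((τ : ℤ) * s 1) ((τ : ℤ) * k)).2 : ℚ)⟩ : WeierstrassCurve ℚ).map
        (algebraMap ℚ K)) 1 := by
  refine rootG F K hT hA hD hc hk hodd hinf fun w hw => ?_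
  refine prod_eq_one fun p hp => ?_
  have hpp : p.Prime := by
    rcases mem_insert.1 hp with rfl | hp
    · exact Nat.prime_two
    · exact Nat.prime_of_mem_primeFactors hp
  have h5 : Even (primesOver (span {(p : ℤ)}) (𝓞 K)).ncard :=
    (even_primes F K hodd hpp).2 (hg p hp)
  rcases (hw p hp).1 with h | h
  · rw [h, one_pow]
  · rw [h, h5.neg_one_pow]

open Classical in
/-- the ranks over `K` and `F` have the same parity -/
theorem even_rankF [IsGalois F K] (hodd : Odd (Module.finrank F K)) {c : ℤ × ℤ}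
    (hD : 4 * c.1 ^ 3 + 27 * c.2 ^ 2 ≠ 0)
    (hT : Pool.Agent.W307.RT.HasT 2 (Pool.Agent.W307.RT.Sh c.1 c.2)) :
    Even (Module.finrank ℤ ((Pool.Agent.W307.RT.Sh c.1 c.2).baseChange K).toAffine.Point +
      Module.finrank ℤ ((Pool.Agent.W307.RT.Sh c.1 c.2).baseChange F).toAffine.Point) := by
  have hfin := fin_K K hD hT
  letI := gaF F K (Pool.Agent.W307.RT.Sh c.1 c.2)
  have hG : Odd (Nat.card (K ≃ₐ[F] K)) := by
    rw [IsGalois.card_aut_eq_finrank]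
    exact hodd
  have h := Pool.Agent.Y624.OG.ODDG (K ≃ₐ[F] K)
    ((Pool.Agent.W307.RT.Sh c.1 c.2).baseChange K).toAffine.Point hG
  rw [finrank_fixed F K (Pool.Agent.W307.RT.Sh c.1 c.2)] at h
  exact h

end

end Pool.Agent.K3h18.PV
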