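import Mathlib
import Pool.Agent.K3h18.PV.Root
import Pool.Agent.K3h18.PV.Quad0
import Pool.Agent.Y427.QKE.Evg

/-!
# Parity: root numbers over the Galois extensions of odd degree of a real quadratic field
-/

set_option autoImplicit false

namespace Pool.Agent.K3h18.PV

open Finset NumberField Ideal Pool.Agent.Y667.PA Pool.Agent.Y667.OG Pool.Agent.Y285.RP
  Pool.Agent.Y667.QK Pool.Agent.Y667.QK.EV Pool.Agent.Y837.QKE

section

variable (F : Type) [Field F] [NumberField F]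

/-- a prime `p` with `(D/p) = -1` is inert in `ℚ(√D)` -/
lemma quad_inert [IsGalois ℚ F] (h2 : Module.finrank ℚ F = 2) {D : ℕ} {x : F}
    (hx : x ^ 2 = (D : F)) {p : ℕ} (hp : p.Prime) (hp2 : p ≠ 2) (hJ : jacobiSym (D : ℤ) p = -1) :
    (primesOver (span {(p : ℤ)}) (𝓞 F)).ncard = 1 ∧
      ∀ Q ∈ primesOver (span {(p : ℤ)}) (𝓞 F), Even (Q.inertiaDeg ℤ) := by
  classical
  have : Fact p.Prime := ⟨hp⟩
  have hmax : (span {(p : ℤ)}).IsMaximal := Int.ideal_span_isMaximal_of_prime p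
  have hprime : (span {(p : ℤ)}).IsPrime := hmax.isPrime
  have hev : ∀ Q ∈ primesOver (span {(p : ℤ)}) (𝓞 F), Even (Q.inertiaDeg ℤ) := by
    intro Q hQ
    by_contra hodd
    rw [Nat.not_even_iff_odd] at hodd
    have hQ0 := over_ne hp hQ
    have hQm : Q.IsMaximal := hQ.1.isMaximal hQ0
    letI : Field (𝓞 F ⧸ Q) := Ideal.Quotient.field Q
    have hcard := card_quot Q hQ.1 hQ0
    rw [below_eq hp hQ] at hcard
    have hfin : Finite (𝓞 F ⧸ Q) := by
      apply Nat.finite_of_card_ne_zero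
      rw [hcard]
      exact pow_ne_zero _ hp.ne_zero
    letI : Fintype (𝓞 F ⧸ Q) := Fintype.ofFinite _
    have hch : CharP (𝓞 F ⧸ Q) p := by
      have := charP_quot Q
      rwa [below_eq hp hQ] at this
    have h5 := char_trans (F := 𝓞 F ⧸ Q) hp2 hodd (by
      rw [← Nat.card_eq_fintype_card, hcard]) (D : ℤ)
    have hxi : IsIntegral ℤ x := by
      refine IsIntegral.of_pow (n := 2) (by norm_num) ?_
      rw [hx]
      exact_mod_cast (isIntegral_algebraMap (R := ℤ) (A := F) (x := (D : ℤ)))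
    obtain ⟨y, hyx⟩ : ∃ y : 𝓞 F, algebraMap (𝓞 F) F y = x := ⟨⟨x, hxi⟩, rfl⟩
    have hy : y ^ 2 = ((D : ℤ) : 𝓞 F) := by
      apply FaithfulSMul.algebraMap_injective (𝓞 F) F
      rw [map_pow, hyx, map_intCast, hx, Int.cast_natCast]
    have hz : (Ideal.Quotient.mk Q y) ^ 2 = ((D : ℤ) : 𝓞 F ⧸ Q) := by
      rw [← map_pow, hy, map_intCast]
    rw [hJ, ← hz, map_pow] at h5
    have h6 := sq_nonneg (quadraticChar (𝓞 F ⧸ Q) (Ideal.Quotient.mk Q y))
    rw [h5] at h6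
    norm_num at h6
  refine ⟨?_, hev⟩
  have h := ncard_primesOver_mul_ramificationIdxIn_mul_inertiaDegIn (span {(p : ℤ)}) (𝓞 F) Gal(F/ℚ)
  rw [IsGaloisGroup.card_eq_finrank Gal(F/ℚ) ℚ F, h2] at h
  have hne : (primesOver (span {(p : ℤ)}) (𝓞 F)).Nonempty := by
    by_contra hcon
    rw [Set.not_nonempty_iff_eq_empty] at hcon
    rw [hcon, Set.ncard_empty, zero_mul] at h
    norm_num at h
  obtain ⟨Q, hQ⟩ := hne
  have hQp : Q.IsPrime := hQ.1
  have hQL : Q.LiesOver (span {(p : ℤ)}) := hQ.2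
  obtain ⟨k, hk⟩ := hev Q hQ
  rw [inertiaDegIn_eq_inertiaDeg (span {(p : ℤ)}) Q Gal(F/ℚ), hk] at h
  have h3 : (primesOver (span {(p : ℤ)}) (𝓞 F)).ncard *
      (ramificationIdxIn (span {(p : ℤ)}) (𝓞 F) * k) = 1 := by
    have : 2 * ((primesOver (span {(p : ℤ)}) (𝓞 F)).ncard *
        (ramificationIdxIn (span {(p : ℤ)}) (𝓞 F) * k)) =
        (primesOver (span {(p : ℤ)}) (𝓞 F)).ncard *
        (ramificationIdxIn (span {(p : ℤ)}) (𝓞 F) * (k + k)) := by ring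
    rw [h] at this
    omega
  exact Nat.eq_one_of_mul_eq_one_right h3

/-- `a` over a field of even degree is one -/
lemma aP_inert {τ : ℕ} {s : Fin 3 → ℕ} (hτ8 : τ % 8 = 1) (h : DP s)
    (hcop : Nat.Coprime τ (∏ j, s j)) {p : ℕ} (hp : p ∈ (∏ j, s j).primeFactors)
    {Q : Ideal (𝓞 F)} (hQ : Q ∈ primesOver (span {(p : ℤ)}) (𝓞 F))
    (hev : Even (Q.inertiaDeg ℤ)) :
    aP ((Vm ((τ : ℤ) * s 1) ((τ : ℤ) * s 2)).map (Int.castRingHom (𝓞 F))) Q = 1 := by
  classical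
  have hpp := Nat.prime_of_mem_primeFactors hp
  have : Fact p.Prime := ⟨hpp⟩
  have hQ0 := over_ne hpp hQ
  have hQm : Q.IsMaximal := hQ.1.isMaximal hQ0
  letI : Field (𝓞 F ⧸ Q) := Ideal.Quotient.field Q
  have hcard := card_quot Q hQ.1 hQ0
  rw [below_eq hpp hQ] at hcard
  have hfin : Finite (𝓞 F ⧸ Q) := by
    apply Nat.finite_of_card_ne_zero
    rw [hcard]
    exact pow_ne_zero _ hpp.ne_zero
  letI : Fintype (𝓞 F ⧸ Q) := Fintype.ofFinite _
  have hch : CharP (𝓞 F ⧸ Q) p := by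
    have := charP_quot Q
    rwa [below_eq hpp hQ] at this
  rw [aP_eq]
  obtain ⟨c, hc⟩ := aF_int hτ8 h hp
  have h1 := hc (𝓞 F ⧸ Q)
  rcases aF_pm hτ8 h hcop (mem_insert_of_mem hp) (𝓞 F ⧸ Q) with h2 | h2
  · exact h2
  · exfalso
    rcases char_even (F := 𝓞 F ⧸ Q) (h.pne hp) hev (by
      rw [← Nat.card_eq_fintype_card, hcard]) c with h3 | h3
    · rw [h2, h3] at h1
      norm_num at h1
    · rw [h2, h3] at h1
      norm_num at h1

variable (K : Type) [Field K] [NumberField K] [Algebra F K]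

/-- the root number over `K` is one -/
theorem rootQ (hT : St_TAU) {τ : ℕ} {s : Fin 3 → ℕ} (hA : AdT τ) (hD : DP s)
    (hc : Nat.Coprime τ (∏ j, s j)) {k : ℤ} (hk : (s 0 : ℤ) + s 1 = 3 * k)
    {q q' : ℕ} (hq : q.Prime) (hq' : q'.Prime) (hq8 : q % 8 = 1) (hq8' : q' % 8 = 1) (hne : q ≠ q')
    (hnq : ∀ p ∈ insert 2 (∏ j, s j).primeFactors, p ≠ q ∧ p ≠ q')
    (hJ : jacobiSym ((∏ j, s j : ℕ) : ℤ) q = 1) (hJ' : jacobiSym ((∏ j, s j : ℕ) : ℤ) q' = 1)
    [IsGalois ℚ F] (h2 : Module.finrank ℚ F = 2) {x : F} (hx : x ^ 2 = ((q * q' : ℕ) : F))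
    (hinf : Even (Nat.card (InfinitePlace F)))
    [IsGalois F K] (hodd : Odd (Module.finrank F K)) :
    RootNumberK ((⟨0, 0, 0, ((cc ((τ : ℤ) * s 0) ((τ : ℤ) * s 1) ((τ : ℤ) * k)).1 : ℚ),
      ((cc ((τ : ℤ) * s 0) ((τ : ℤ) * s 1) ((τ : ℤ) * k)).2 : ℚ)⟩ : WeierstrassCurve ℚ).map
        (algebraMap ℚ K)) 1 := by
  classical
  have hτ8 : τ % 8 = 1 := Pool.Agent.Y858.QK.mod8 hA.sqf hA.m8
  have hsq : ¬ IsSquare (((q * q' : ℕ) : ℤ) : ℚ) := by
    rintro h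
    rw [Int.cast_natCast, Rat.isSquare_natCast_iff] at h
    obtain ⟨r, hr⟩ := h
    have h1 : q ∣ r * r := by
      rw [← hr]
      exact dvd_mul_right _ _
    have h3 : q ∣ r := by
      rcases hq.dvd_mul.1 h1 with h | h <;> exact h
    obtain ⟨t, rfl⟩ := h3
    have h4 : q' = q * (t * t) := by
      have : q * q' = q * (q * (t * t)) := by rw [hr]; ring
      exact Nat.eq_of_mul_eq_mul_left hq.pos this
    have h5 : q ∣ q' := ⟨t * t, h4⟩
    exact hne ((Nat.prime_dvd_prime_iff_eq hq hq').1 h5)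
  have hx' : x ^ 2 = (((q * q' : ℕ) : ℤ) : F) := by
    rw [hx, Int.cast_natCast]
  have h8 : ((q * q' : ℕ) : ℤ) % 8 = 1 := by
    have : (q * q') % 8 = 1 := by rw [Nat.mul_mod, hq8, hq8']
    omega
  refine rootG F K hT hA hD hc hk hodd hinf fun w hw => ?_
  have hrec : jacobiSym ((q * q' : ℕ) : ℤ) (∏ j, s j) = 1 := jac_recip hq8 hq8' hD.odd hJ hJ'
  have hpf : jacobiSym ((q * q' : ℕ) : ℤ) (∏ j, s j) =
      ∏ p ∈ (∏ j, s j).primeFactors, jacobiSym ((q * q' : ℕ) : ℤ) p := by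
    conv_lhs => rw [← Nat.prod_primeFactors_of_squarefree hD.sq]
    exact jac_prod _ _ _ fun p hp => (Nat.prime_of_mem_primeFactors hp).ne_zero
  have hm2 : Module.finrank ℚ F = 2 ^ 1 := by rw [h2, pow_one]
  rw [prod_insert hD.two]
  have htwo : w 2 ^ (primesOver (span {((2 : ℕ) : ℤ)}) (𝓞 K)).ncard = 1 := by
    have h3 := Pool.Agent.Y427.QKE.two_case F x _ hx' hsq h8
    have h4 := Pool.Agent.Y427.QKE.even_pr F hm2 Nat.prime_two h3
    have h5 := (even_primes F K hodd Nat.prime_two).2 h4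
    rcases (hw 2 (mem_insert_self _ _)).1 with h | h
    · rw [h, one_pow]
    · rw [h, h5.neg_one_pow]
  rw [htwo, one_mul, ← hrec, hpf]
  refine prod_congr rfl fun p hp => ?_
  have hpp := Nat.prime_of_mem_primeFactors hp
  have hpm := mem_insert_of_mem (a := p) (b := 2) hp
  have : Fact p.Prime := ⟨hpp⟩
  have hp2 := hD.pne hp
  have hpD : ¬ p ∣ q * q' := by
    intro h
    rcases hpp.dvd_mul.1 h with h | h
    · exact (hnq p hpm).1 ((Nat.prime_dvd_prime_iff_eq hpp hq).1 h)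
    · exact (hnq p hpm).2 ((Nat.prime_dvd_prime_iff_eq hpp hq').1 h)
  have h0 : ((((q * q' : ℕ) : ℤ)) : ZMod p) ≠ 0 := by
    intro h
    rw [Int.cast_natCast, ZMod.natCast_eq_zero_iff] at h
    exact hpD h
  rcases jacobiSym.trichotomy ((q * q' : ℕ) : ℤ) p with h | h | h
  · exfalso
    rw [← jacobiSym.legendreSym.to_jacobiSym] at h
    exact h0 ((legendreSym.eq_zero_iff p _).1 h)
  · rw [h]
    have hsqp : IsSquare ((((q * q' : ℕ) : ℤ)) : ZMod p) := by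
      rw [← jacobiSym.legendreSym.to_jacobiSym] at h
      exact (legendreSym.eq_one_iff p h0).1 h
    have h3 := Pool.Agent.Y427.QKE.odd_case F x _ hx' hsq hpp hp2 h0 hsqp
    have h4 := Pool.Agent.Y427.QKE.even_pr F hm2 hpp h3
    have h5 := (even_primes F K hodd hpp).2 h4
    rcases (hw p hpm).1 with h | h
    · rw [h, one_pow]
    · rw [h, h5.neg_one_pow]
  · rw [h]
    obtain ⟨h3, h4⟩ := quad_inert F h2 hx hpp hp2 h
    have h5 : Odd (primesOver (span {(p : ℤ)}) (𝓞 K)).ncard := by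
      rw [← Nat.not_even_iff_odd, even_primes F K hodd hpp, h3]
      decide
    obtain ⟨Q, hQ⟩ := Set.ncard_eq_one.1 h3
    have hQm : Q ∈ primesOver (span {(p : ℤ)}) (𝓞 F) := by
      rw [hQ]
      rfl
    rw [(hw p hpm).2 Q hQm, aP_inert F hτ8 hD hc hp hQm (h4 Q hQm), h5.neg_one_pow]

end

end Pool.Agent.K3h18.PV
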