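import Pool.Agent.K3h18.PV.Root
import Pool.Agent.K3h18.PV.Quad
import Pool.Agent.Y667.QKE.Core
import Pool.Agent.Y667.QKE.Main0
import Pool.Agent.Y427.QKE.Evg
import Pool.Agent.Y67.QKE.TAU

/-!
# Parity: many curves for one multiquadratic field, with the root numbers over all its Galois
extensions of odd degree
-/

set_option autoImplicit false

namespace Pool.Agent.K3h18.PV

open Finset Filter Pool.Agent.W262.RK Pool.Agent.W307.RT Pool.Agent.W307.RS Pool.Agent.W307.SE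
  Pool.Agent.W307.FK Pool.Agent.Y667.RP Pool.Agent.Y667.RZ Pool.Agent.Y667.PA Pool.Agent.Y285.RP
open Pool.Agent.Y667.QK Pool.Agent.Y667.QK.R Pool.Agent.Y667.QK.R.E

/-- the twists by the products of the `d i` have 2-Selmer groups of order four, and the root number
over all the Galois extensions of odd degree of the field is one -/
def TwV {m : ℕ} (d : Fin m → ℤ) (c : ℤ × ℤ) : Prop := TwS d c ∧
  ∀ (F : Type) [Field F] [NumberField F], Pool.Agent.TH841.NF.Gen F d →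
    ∀ (K : Type) [Field K] [NumberField K] [Algebra F K] [IsGalois F K],
      Odd (Module.finrank F K) → Pool.Agent.Y667.OG.RootNumberK
        ((⟨0, 0, 0, (c.1 : ℚ), (c.2 : ℚ)⟩ : WeierstrassCurve ℚ).map (algebraMap ℚ K)) 1

open Classical in
theorem coreV (hMT : St_MAINTE) (hBOX : St_BOX) (hCVT : St_CVT) (hPRM : St_PRM)
    (hTAU : EV.St_TAU) (hEVG : EV.St_EVG) {f β : ℕ}
    (hfl : Flip f β) (m N : ℕ) (hm1 : 1 ≤ m) :
    ∃ (n : ℕ) (q : Fin m → Fin n → ℕ),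
      (∀ j j' i i', q j i = q j' i' → j = j' ∧ i = i') ∧ (∀ j i, (q j i).Prime ∧ N < q j i ∧ q j i % 8 = 1) ∧
      ∃ δ : ℝ, 0 < δ ∧ ∃ H0 : ℕ, ∀ H : ℕ, H0 ≤ H →
        ∃ i i' : Fin m → Fin n, (∀ j, i j ≠ i' j) ∧
          δ * ((Cv 2 H).card : ℝ) ≤ (((Cv 2 H).filter
            (TwV (fun j => ((q j (i j) * q j (i' j) : ℕ) : ℤ)))).card : ℝ) := by
  have hf0 : 0 < f := hfl.pr.pos
  have hfr : (0 : ℝ) < f := by exact_mod_cast hf0
  obtain ⟨c, hc, ε, hε, z, hM⟩ := hMT f β hfl m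
  obtain ⟨n, c', hn, hc', hB⟩ := hBOX m (c * (f : ℝ) ^ 2 / 8) (by positivity)
  obtain ⟨p, hpi, hpp, hpz, hAd, hsum⟩ := hPRM f hfl.pr hfl.m8 (m * n) (max N z) ε hε
  set D := ∏ i, p i with hDdef
  set q : Fin m → Fin n → ℕ := fun j i => p (finProdFinEquiv (j, i)) with hq
  have hqp : ∀ j i, (q j i).Prime := fun j i => hpp _
  have hD0 : 0 < D := prod_pos fun i _ => (hpp i).pos
  have hqD : ∀ j i, q j i ∣ D := fun j i => dvd_prod_of_mem p (mem_univ _)
  have hq8 : ∀ j i, q j i % 8 = 1 := fun j i => hAd.m8 _ (Nat.mem_primeFactors.2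
    ⟨hqp j i, (hqD j i).mul_left f, (Nat.mul_pos hf0 hD0).ne'⟩)
  have hDr : (0 : ℝ) < D := by exact_mod_cast hD0
  obtain ⟨X0, hX0⟩ := hM D hAd (fun x hx => by
    obtain ⟨i, rfl⟩ := mem_pf_prod hpp hx
    exact (le_max_right _ _).trans_lt (hpz i)) (by
    refine le_trans ?_ hsum
    have h1 : D.primeFactors ⊆ univ.image p := by
      intro x hx
      obtain ⟨i, rfl⟩ := mem_pf_prod hpp hx
      exact mem_image.2 ⟨i, mem_univ _, rfl⟩
    refine (sum_le_sum_of_subset_of_nonneg h1 fun x _ _ => by positivity).trans (le_of_eq ?_)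
    rw [sum_image (fun x _ y _ h => hpi h)])
  have hfD : 0 < f * D := Nat.mul_pos hf0 hD0
  obtain ⟨K, hK, hcv⟩ := hCVT (f * D) hfD
  obtain ⟨H0, hH0⟩ := hcv (max X0 (f * D))
  refine ⟨n, q, ?_, fun j i => ⟨hqp j i, (le_max_left _ _).trans_lt (hpz _), hq8 j i⟩,
    c' * (c / 2) / ((D : ℝ) ^ 2 * K), by positivity, H0, fun H hH => ?_⟩
  · intro j j' i i' h
    have := finProdFinEquiv.injective (hpi h)
    exact Prod.mk.injEq _ _ _ _ ▸ this
  obtain ⟨X, hX1, hX2, hX3, hX4⟩ := hH0 H hH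
  have hXX0 : X0 ≤ X := (le_max_left _ _).trans hX1
  have hXD : f * D ≤ X := (le_max_right _ _).trans hX1
  have hsqf : Squarefree (f * D) := hAd.sqf
  set Ω := (Icc 1 X ×ˢ Icc 1 X).filter (fun x => RC f β (f * D) x.1 x.2) with hΩ
  set G : ℕ → (Fin m → Fin n) → Finset (ℕ × ℕ) := fun g t =>
    (Icc 1 X ×ˢ Icc 1 X).filter (GxE f β D X (g * tt q t)) with hG
  have hsub : ∀ g t, G g t ⊆ Ω := by
    intro g t x hx
    rw [hG, mem_filter] at hx
    rw [hΩ, mem_filter]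
    exact ⟨hx.1, hx.2.1.2.1⟩
  have hlow : ∀ t : Fin m → Fin n,
      c * (X : ℝ) ^ 2 / (D : ℝ) ^ 2 ≤ ((G 1 t).card : ℝ) + ((G f t).card : ℝ) := by
    intro t
    refine (hX0 X hXX0 (tt q t) (Nat.mem_divisors.2 ⟨tt_dvd t, hD0.ne'⟩)
      (card_pf_tt hqp t)).trans ?_
    have h1 : (Icc 1 X ×ˢ Icc 1 X).filter (GoodE f β D (tt q t) X) ⊆ G 1 t ∪ G f t := by
      intro x hx
      rw [mem_filter] at hx
      rw [mem_union, hG, mem_filter, mem_filter, one_mul]
      rcases good_orE hx.2 with h | h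
      · exact Or.inl ⟨hx.1, h⟩
      · exact Or.inr ⟨hx.1, h⟩
    exact_mod_cast (card_le_card h1).trans (card_union_le _ _)
  have hnm : ((n : ℝ) ^ m) = ((univ : Finset (Fin m → Fin n)).card : ℝ) := by
    rw [card_univ, Fintype.card_fun, Fintype.card_fin, Fintype.card_fin]
    push_cast
    rfl
  have hsumG : (n : ℝ) ^ m * (c * (X : ℝ) ^ 2 / (D : ℝ) ^ 2) ≤
      ∑ t, ((G 1 t).card : ℝ) + ∑ t, ((G f t).card : ℝ) := by
    rw [← sum_add_distrib, hnm, ← nsmul_eq_mul]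
    exact card_nsmul_le_sum _ _ _ fun t _ => hlow t
  have hΩle : (Ω.card : ℝ) ≤ 4 * (X : ℝ) ^ 2 / ((f * D : ℕ) : ℝ) ^ 2 := card_RC hsqf hXD
  obtain ⟨g, hg, hgs⟩ : ∃ g : ℕ, (g = 1 ∨ g = f) ∧
      (n : ℝ) ^ m * (c * (X : ℝ) ^ 2 / (D : ℝ) ^ 2) / 2 ≤ ∑ t, ((G g t).card : ℝ) := by
    by_cases h : (n : ℝ) ^ m * (c * (X : ℝ) ^ 2 / (D : ℝ) ^ 2) / 2 ≤ ∑ t, ((G 1 t).card : ℝ)
    · exact ⟨1, Or.inl rfl, h⟩
    · refine ⟨f, Or.inr rfl, ?_⟩
      push Not at h
      linarith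
  have hbox : c * (f : ℝ) ^ 2 / 8 * (n : ℝ) ^ m * (Ω.card : ℝ) ≤ ∑ t, ((G g t).card : ℝ) := by
    refine le_trans ?_ hgs
    calc c * (f : ℝ) ^ 2 / 8 * (n : ℝ) ^ m * (Ω.card : ℝ)
        ≤ c * (f : ℝ) ^ 2 / 8 * (n : ℝ) ^ m * (4 * (X : ℝ) ^ 2 / ((f * D : ℕ) : ℝ) ^ 2) :=
          mul_le_mul_of_nonneg_left hΩle (by positivity)
      _ = (n : ℝ) ^ m * (c * (X : ℝ) ^ 2 / (D : ℝ) ^ 2) / 2 := by
          push_cast
          field_simp
          ring
  have hn0 : (0 : ℝ) < (n : ℝ) ^ m := by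
    have : (0 : ℝ) < n := by exact_mod_cast (by omega : 0 < n)
    positivity
  have hΩge : c * (X : ℝ) ^ 2 / (D : ℝ) ^ 2 / 2 ≤ (Ω.card : ℝ) := by
    have h1 : ∑ t, ((G g t).card : ℝ) ≤ (n : ℝ) ^ m * (Ω.card : ℝ) := by
      rw [hnm, ← nsmul_eq_mul]
      exact sum_le_card_nsmul _ _ _ fun t _ => by exact_mod_cast card_le_card (hsub g t)
    have h2 := hgs.trans h1
    rw [mul_div_assoc] at h2
    exact le_of_mul_le_mul_left h2 hn0
  obtain ⟨i, i', hne, hcard⟩ := hB (ℕ × ℕ) Ω (G g) (hsub g) hbox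
  refine ⟨i, i', hne, ?_⟩
  set W := Ω.filter (fun x => ∀ S : Finset (Fin m),
    x ∈ G g (fun j => if j ∈ S then i' j else i j)) with hW
  have hcard' : c' * (Ω.card : ℝ) ≤ (W.card : ℝ) := by
    rw [hW]
    convert hcard
  have hgf : g ∣ f := by
    rcases hg with rfl | rfl
    · exact one_dvd _
    · exact dvd_rfl
  have hg0 : g ≠ 0 := by
    rcases hg with rfl | rfl
    · exact one_ne_zero
    · exact hf0.ne'
  have hτd : g * tt q i ∣ f * D := mul_dvd_mul hgf (tt_dvd i)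
  have hWx : ∀ x ∈ W, ∀ S : Finset (Fin m),
      GxE f β D X (g * tt q (fun j => if j ∈ S then i' j else i j)) x := by
    intro x hx S
    rw [hW, mem_filter] at hx
    have := hx.2 S
    rw [hG, mem_filter] at this
    exact this.2
  have hWle : W.card ≤ ((Cv 2 H).filter
      (TwV (fun j => ((q j (i j) * q j (i' j) : ℕ) : ℤ)))).card := by
    refine hX4 (g * tt q i) W _ (Nat.pos_of_dvd_of_pos hτd hfD) (Nat.le_of_dvd hfD hτd)
      (hsqf.squarefree_of_dvd hτd) (fun x hx => (hWx x hx ∅).1.1) fun x hx k hk => ?_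
    have hu0 : ∀ j, ((q j (i j) : ℕ) : ℤ) ≠ 0 := fun j => by exact_mod_cast (hqp _ _).ne_zero
    have hv0 : ∀ j, ((q j (i' j) : ℕ) : ℤ) ≠ 0 := fun j => by exact_mod_cast (hqp _ _).ne_zero
    have hid : ∀ T : Finset (Fin m), (∏ j ∈ T, ((q j (i j) * q j (i' j) : ℕ) : ℤ)) * ((g * tt q i : ℕ) : ℤ) =
        ((g * tt q (fun j => if j ∈ T then i' j else i j) : ℕ) : ℤ) *
          (∏ j ∈ T, ((q j (i j) : ℕ) : ℤ)) ^ 2 := by
      intro T
      have h1 := prod_tw (fun j => ((q j (i j) : ℕ) : ℤ)) (fun j => ((q j (i' j) : ℕ) : ℤ)) T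
      have h2 : ((tt q (fun j => if j ∈ T then i' j else i j) : ℕ) : ℤ) =
          ∏ j, (if j ∈ T then ((q j (i' j) : ℕ) : ℤ) else ((q j (i j) : ℕ) : ℤ)) := by
        unfold tt
        rw [Nat.cast_prod]
        refine prod_congr rfl fun j _ => ?_
        by_cases hjT : j ∈ T
        · simp only [hjT, if_true]
        · simp only [hjT, if_false]
      have h3 : ((tt q i : ℕ) : ℤ) = ∏ j, ((q j (i j) : ℕ) : ℤ) := by
        unfold tt
        rw [Nat.cast_prod]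
      push_cast at h1 h2 h3 ⊢
      rw [h2, h3]
      linear_combination (g : ℤ) * h1
    refine ⟨fun T => ?_, fun F _ _ hK E' _ _ _ _ hodd => ?_⟩
    · obtain ⟨⟨⟨b1, b2, b3, b4, -⟩, -, hfin, hcd⟩, -⟩ := hWx x hx T
      obtain ⟨s1, s2⟩ := sel_tw (τ := ((g * tt q i : ℕ) : ℤ))
        (τ' := ((g * tt q (fun j => if j ∈ T then i' j else i j) : ℕ) : ℤ))
        (r := ∏ j ∈ T, ((q j (i j) : ℕ) : ℤ)) (d := ∏ j ∈ T, ((q j (i j) * q j (i' j) : ℕ) : ℤ))
        (x1 := (x.1 : ℤ)) (x2 := (x.2 : ℤ)) (k := k) hk (by omega) (by omega)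
        (by exact_mod_cast (Nat.pos_of_dvd_of_pos hτd hfD).ne')
        (prod_ne_zero_iff.2 fun j _ => by
          rw [Nat.cast_mul]
          exact mul_ne_zero (hu0 j) (hv0 j))
        (prod_ne_zero_iff.2 fun j _ => hu0 j) (hid T) hfin
      exact ⟨s1, s2.trans hcd⟩
    · obtain ⟨-, s, e0, e1, hDP, hcop⟩ := hWx x hx ∅
      have hinj : ∀ j j' a b, q j a = q j' b → j = j' ∧ a = b := by
        intro j j' a b h
        have := finProdFinEquiv.injective (hpi h)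
        exact Prod.mk.injEq _ _ _ _ ▸ this
      have hnq : ∀ r ∈ insert 2 (∏ j, s j).primeFactors, ∀ j a, r ≠ q j a := by
        intro r hr j a hra
        rw [mem_insert] at hr
        have h8 := hq8 j a
        rw [← hra] at h8
        rcases hr with rfl | hr
        · omega
        · have h1 : r ∣ f * D := by
            rw [hra]
            exact (hqD j a).mul_left f
          exact (Nat.prime_of_mem_primeFactors hr).one_lt.ne'
            (Nat.eq_one_of_dvd_coprimes hcop h1 (Nat.dvd_of_mem_primeFactors hr))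
      have hi1 : Function.Injective (fun j => q j (i j)) := fun j j' h => (hinj _ _ _ _ h).1
      have hi2 : Function.Injective (fun j => q j (i' j)) := fun j j' h => (hinj _ _ _ _ h).1
      have hi3 : ∀ j j', q j (i j) ≠ q j' (i' j') := fun j j' h => by
        obtain ⟨h1, h2⟩ := hinj _ _ _ _ h
        subst h1
        exact hne _ h2
      rcases Nat.lt_or_ge 1 m with hm2 | hm2
      · obtain ⟨hgal, hinf, hprm⟩ := hEVG m (fun j => q j (i j)) (fun j => q j (i' j)) hm2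
          (fun j => ⟨hqp _ _, hq8 _ _⟩) (fun j => ⟨hqp _ _, hq8 _ _⟩) hi1 hi2 hi3 F hK
        have h := rootV F E' hTAU (hAd.of_dvd hτd) hDP (hcop.coprime_dvd_left hτd) (k := k)
          (by rw [e0, e1]; exact hk) hodd hinf (fun r hr => hprm r (by
            rw [mem_insert] at hr
            rcases hr with rfl | hr
            · exact Nat.prime_two
            · exact Nat.prime_of_mem_primeFactors hr)
            fun j => ⟨hnq r hr _ _, hnq r hr _ _⟩)
        rw [e0, e1] at h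
        exact h
      · have hJ : ∀ j a, jacobiSym ((∏ j, s j : ℕ) : ℤ) (q j a) = 1 := by
          intro j a
          have hRC := (hWx x hx ∅).1.2.1
          have hqf : q j a ∈ (f * D).primeFactors :=
            Nat.mem_primeFactors.2 ⟨hqp j a, (hqD j a).mul_left f, hfD.ne'⟩
          obtain ⟨r1, -, r3⟩ := hRC _ hqf
          have hnf : q j a ≠ f := by
            intro h
            have h1 : f * f ∣ f * D := mul_dvd_mul_left f (h ▸ hqD j a)
            exact hfl.pr.one_lt.ne' (Nat.isUnit_iff.1 (hsqf _ h1))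
          rw [prod3 s, e0, e1]
          exact jac_class (hqp j a) (hq8 j a) r1 (r3 hnf) (by
            have := hDP.rel
            rw [e0, e1] at this
            exact this)
        obtain rfl : m = 1 := le_antisymm hm2 hm1
        have hdeg : Module.finrank ℚ F = 2 ^ 1 := Pool.Agent.Y388.QK.DEG 1 (fun j => q j (i j))
          (fun j => q j (i' j)) (fun j => hqp _ _) (fun j => hqp _ _) hi1 hi2 hi3 F hK
        obtain ⟨x0, hx0, htop⟩ := hK
        have hgal : IsGalois ℚ F := Pool.Agent.Y427.QKE.isGal F _ x0 hx0 htop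
        have hpl := Pool.Agent.Y427.QKE.places F _ x0 (fun j => by
          exact_mod_cast Nat.mul_pos (hqp j (i j)).pos (hqp j (i' j)).pos) hx0 htop
        have h := rootQ F E' hTAU (hAd.of_dvd hτd) hDP (hcop.coprime_dvd_left hτd) (k := k)
          (by rw [e0, e1]; exact hk) (hqp 0 (i 0)) (hqp 0 (i' 0)) (hq8 0 (i 0)) (hq8 0 (i' 0))
          (hi3 0 0) (fun r hr => ⟨hnq r hr _ _, hnq r hr _ _⟩) (hJ _ _) (hJ _ _)
          (by rw [hdeg, pow_one]) (x := x0 0) (by rw [hx0 0, Int.cast_natCast])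
          (by rw [hpl, hdeg]; decide) hodd
        rw [e0, e1] at h
        exact h
  calc c' * (c / 2) / ((D : ℝ) ^ 2 * K) * ((Cv 2 H).card : ℝ)
      ≤ c' * (c / 2) / ((D : ℝ) ^ 2 * K) * (K * (X : ℝ) ^ 2) :=
        mul_le_mul_of_nonneg_left hX3 (by positivity)
    _ = c' * (c * (X : ℝ) ^ 2 / (D : ℝ) ^ 2 / 2) := by field_simp
    _ ≤ c' * (Ω.card : ℝ) := mul_le_mul_of_nonneg_left hΩge hc'.le
    _ ≤ (W.card : ℝ) := hcard'
    _ ≤ _ := by exact_mod_cast hWle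


open Classical in
/-- **Main theorem**, ordering by the height. -/
theorem main_hV (m N : ℕ) (hm : 1 ≤ m) :
    ∃ L : Finset (Fin m → ℕ), (∀ d ∈ L, Tup8 m N d) ∧ ∃ δ : ℝ, 0 < δ ∧ ∃ H0 : ℕ,
      ∀ H : ℕ, H0 ≤ H → ∃ d ∈ L, δ * ((Cv 2 H).card : ℝ) ≤
        (((Cv 2 H).filter (TwV (fun j => (d j : ℤ)))).card : ℝ) := by
  obtain ⟨β, hfl⟩ := Pool.Agent.Y388.QK.FLIP 17 (by norm_num) (by norm_num)
  obtain ⟨n, q, hinj, hpr, δ, hδ, H0, h⟩ := coreV (mainteE pare) Pool.Agent.Y496.QK.BOX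
    Pool.Agent.Y697.QK.CVT Pool.Agent.Y388.QK.PRM Pool.Agent.Y67.QKE.TAU Pool.Agent.Y427.QKE.EVG hfl m N hm
  let g : (Fin m → Fin n) × (Fin m → Fin n) → (Fin m → ℕ) :=
    fun t j => q j (t.1 j) * q j (t.2 j)
  refine ⟨((univ : Finset ((Fin m → Fin n) × (Fin m → Fin n))).filter
    (fun t => ∀ j, t.1 j ≠ t.2 j)).image g, ?_, δ, hδ, H0, fun H hH => ?_⟩
  · intro d hd
    rw [mem_image] at hd
    obtain ⟨t, ht, rfl⟩ := hd
    rw [mem_filter] at ht
    refine ⟨fun j => q j (t.1 j), fun j => q j (t.2 j), fun j => rfl, fun j => hpr _ _,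
      fun j => hpr _ _, ?_, ?_, ?_⟩
    · intro x y hxy
      exact (hinj _ _ _ _ hxy).1
    · intro x y hxy
      exact (hinj _ _ _ _ hxy).1
    · intro x y hxy
      obtain ⟨h1, h2⟩ := hinj _ _ _ _ hxy
      subst h1
      exact ht.2 x h2
  · obtain ⟨i, i', hne, hc⟩ := h H hH
    refine ⟨g (i, i'), mem_image.2 ⟨(i, i'), mem_filter.2 ⟨mem_univ _, hne⟩, rfl⟩, ?_⟩
    exact hc

open Classical in
/-- **Main theorem**, ordering by the minimal discriminant. -/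
theorem main_dV (m N : ℕ) (hm : 1 ≤ m) :
    ∃ L : Finset (Fin m → ℕ), (∀ d ∈ L, Tup8 m N d) ∧ ∃ δ : ℝ, 0 < δ ∧ ∃ Z0 : ℕ,
      ∀ Z : ℕ, Z0 ≤ Z → ∃ d ∈ L, δ * ((Pool.Agent.TH344.DS.Dv Z).card : ℝ) ≤
        (((Pool.Agent.TH344.DS.Dv Z).filter (TwV (fun j => (d j : ℤ)))).card : ℝ) := by
  obtain ⟨L, hL, h⟩ := main_hV m N hm
  exact ⟨L, hL, disc_ex (fun d => d ∈ L) (fun d => TwV (fun j => (d j : ℤ))) h⟩

end Pool.Agent.K3h18.PV
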